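import Pool.Agent.Helper28_LRG.DIR
import Pool.Agent.Helper67_LRG.HCT
import Pool.Agent.Helper43_LRG.NEW
import Pool.Agent.Helper44_LRG.ARC
import Pool.Agent.Helper60_LRG.TRI
import Pool.Agent.Helper10_LRG.LFT
import Pool.Agent.Helper52_LRG.FWC
import Pool.Agent.Helper95_LRG.MUL
import Pool.Agent.Helper44_LRG.MTX
import Pool.Agent.Helper39_LRG.DTD
import Pool.Agent.Helper38_LRG.BDV
import Pool.Agent.Helper41_LRG.HSX

/-!
# LRG, block B6: assembly (helper98)
-/

set_option autoImplicit false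

namespace Pool.Agent.LRG.H98

open Pool.Agent.LRG

theorem arc : H.ArcStmt := H44.arc (H43.new H67.hct)

theorem fwc : H.FwcStmt := H52.fwc H10.lft

theorem bdv : H.BdvStmt := H38.bdv (H44.mtx H95.mul) H39.dtd

/-- The result of block B6. -/
theorem hsx : H.HsxStmt := H41.hsx H28.dir arc H60.tri fwc bdv

end Pool.Agent.LRG.H98
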